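import Pool.Agent.Helper86.Poly.Defs

/-! # MP_cd13d2_co : the case (d, n) = (3, 6), definitions -/

set_option autoImplicit false

namespace Pool.Agent.Helper55.V36

open MeasureTheory Set Pool.Agent.Helper86.Poly

/-- the vector with the given coordinates -/
noncomputable def vec (x y z : ℝ) : E 3 := WithLp.toLp 2 ![x, y, z]

/-- The hexahedral configuration with parameter `x`: the points `0, 1, 2, 3` are the vertices of a
trapezoid in the plane `z = 0` whose two diagonals and whose longer base have length one; the points `4, 5`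
are at distance one on a line orthogonal to this plane, all four distances of them to the points `1, 2` are
one. -/
noncomputable def pst (x : ℝ) : Fin 6 → E 3 :=
  ![vec (-1 / 2) 0 0,
    vec (1 / 2 - x) (-Real.sqrt (1 - x ^ 2)) 0,
    vec (x - 1 / 2) (-Real.sqrt (1 - x ^ 2)) 0,
    vec (1 / 2) 0 0,
    vec 0 (Real.sqrt (1 / 2 + x - x ^ 2) - Real.sqrt (1 - x ^ 2)) (1 / 2),
    vec 0 (Real.sqrt (1 / 2 + x - x ^ 2) - Real.sqrt (1 - x ^ 2)) (-1 / 2)]

/-- six times the volume of the configuration with parameter `x` -/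
noncomputable def gf (x : ℝ) : ℝ :=
  Real.sqrt (1 / 2 + x - x ^ 2) + (2 * x - 1) * Real.sqrt (1 - x ^ 2)

/-! ## auxiliary definitions (not used in the final statement) -/

/-- `x₀` is the optimal parameter -/
structure Opt (x₀ : ℝ) : Prop where
  lo : 0.8032 < x₀
  hi : x₀ < 0.80321
  root : (2 * x₀ - 1) ^ 2 * (1 - x₀ ^ 2) = 2 * (2 + x₀ - 4 * x₀ ^ 2) ^ 2 * (1 + 2 * x₀ - 2 * x₀ ^ 2)
  max : ∀ x, 0 ≤ x → x ≤ 1 → gf x ≤ gf x₀
  uniq : ∀ x, 0 ≤ x → x ≤ 1 → gf x = gf x₀ → x = x₀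
  Tlo : 1.172453 < gf x₀
  Thi : gf x₀ < 1.172454

/-- determinant of three vectors -/
noncomputable def D3 (u v w : E 3) : ℝ :=
  u 0 * (v 1 * w 2 - v 2 * w 1) - u 1 * (v 0 * w 2 - v 2 * w 0) + u 2 * (v 0 * w 1 - v 1 * w 0)

/-- determinant of two planar vectors -/
def d2 (a b : ℝ × ℝ) : ℝ := a.1 * b.2 - a.2 * b.1

/-- no four of the six points are coplanar -/
def Gen (p : Fin 6 → E 3) : Prop := ∀ i j k l, i ≠ j → i ≠ k → i ≠ l → j ≠ k → j ≠ l → k ≠ l →
  D3 (p j - p i) (p k - p i) (p l - p i) ≠ 0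

/-- the indices `0, 1, 2, 3` in `Fin 6` -/
def c4 (k : Fin 4) : Fin 6 := Fin.castLE (by norm_num) k

/-- every plane through three of the points `0, 1, 2, 3` separates the points `4` and `5` -/
def Star (p : Fin 6 → E 3) : Prop := ∀ k l m : Fin 4, k ≠ l → k ≠ m → l ≠ m →
  D3 (p (c4 l) - p (c4 k)) (p (c4 m) - p (c4 k)) (p 4 - p (c4 k)) *
    D3 (p (c4 l) - p (c4 k)) (p (c4 m) - p (c4 k)) (p 5 - p (c4 k)) < 0

/-- `6` times the signed volume of the tetrahedron `4, 5, k, l` -/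
noncomputable def Ad (p : Fin 6 → E 3) (k l : Fin 4) : ℝ :=
  D3 (p 5 - p 4) (p (c4 k) - p 4) (p (c4 l) - p 4)

noncomputable def Xd (p : Fin 6 → E 3) (k l m : Fin 4) : ℝ := Ad p k l + Ad p l m + Ad p m k

/-- the tetrahedra of the triangulation -/
def InF (a : Fin 4 → Fin 4 → ℝ) (k l : Fin 4) : Prop :=
  ∀ m, m ≠ k → m ≠ l → 0 < a k l * (a k l + a l m + a m k)

noncomputable def tF (a : Fin 4 → Fin 4 → ℝ) (k l : Fin 4) : ℝ := by
  classical
  exact if InF a k l then |a k l| else 0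

/-- the sum over the triangulation -/
noncomputable def SF (a : Fin 4 → Fin 4 → ℝ) : ℝ :=
  tF a 0 1 + tF a 0 2 + tF a 0 3 + tF a 1 2 + tF a 1 3 + tF a 2 3

/-- volume of the hull -/
noncomputable def vol {n : ℕ} (p : Fin n → E 3) : ℝ := (volume (convexHull ℝ (range p))).toReal

/-- the pentagon case: the points `0, 1, 2, 3` are seen from the axis `4, 5` in this order, on one side -/
def PB (p : Fin 6 → E 3) : Prop :=
  0 ≤ Ad p 0 3 ∧ 0 ≤ Xd p 0 1 3 ∧ 0 ≤ Xd p 0 2 3 ∧ 6 * vol p ≤ Ad p 0 1 + Ad p 1 2 + Ad p 2 3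

/-- the planar pentagon in polar form: `B = (0, 0)`, `E = (L, 0)`, `D = (b cos β, - b sin β)`,
`C = (L - c cos ε, - c sin ε)`, `A = (u, y)` -/
structure Pen (β ε b c L u y : ℝ) : Prop where
  β0 : 0 ≤ β
  β1 : β ≤ Real.pi
  ε0 : 0 ≤ ε
  ε1 : ε ≤ Real.pi
  b0 : 0 ≤ b
  b1 : b ≤ 1
  c0 : 0 ≤ c
  c1 : c ≤ 1
  L0 : 0 ≤ L
  L1 : L ≤ 1
  y0 : 0 ≤ y
  AC : (u - (L - c * Real.cos ε)) ^ 2 + (y + c * Real.sin ε) ^ 2 ≤ 3 / 4
  AD : (u - b * Real.cos β) ^ 2 + (y + b * Real.sin β) ^ 2 ≤ 3 / 4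

/-- twice the area of the pentagon -/
noncomputable def pv (β ε b c L y : ℝ) : ℝ := b * c * Real.sin (β + ε) + L * y

end Pool.Agent.Helper55.V36
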