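import Pool.Agent.Helper55.V36.Defs
import Pool.Agent.Helper86.Poly.Goals

/-! # MP_cd13d2_co : the case (d, n) = (3, 6), packets

`V(3,6) = gf x₀ / 6 = 0.195408867...`, the maximum of `gf x / 6` over `[0, 1]`, attained exactly by the
polytopes congruent to the hull of `pst x₀`.  Every packet is a `def S_... : Prop` with its complete proof in
the docstring; prove `theorem t : S_...` (other goals named in the docstring may be taken as hypotheses: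
`theorem t (h : S_YY) : S_XX`).  `E 3 = EuclideanSpace ℝ (Fin 3)`; definitions in `Defs.lean` (here) and
`Helper86/Poly/Defs.lean`; the goals `G_SV, G_MAX, G_MX1, ..` of `Helper86/Poly/Goals.lean` are proved
(`Helper86/Poly/Asm.lean`: `pSV`, `pMAX`, ..) and may be used as hypotheses too.  All statements were
checked numerically on random data. -/

set_option autoImplicit false

namespace Pool.Agent.Helper55.V36

open MeasureTheory Set Pool.Agent.Helper86.Poly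

/-! ## General facts -/

/-- HAD. Proof. `D3 u v w = ⟪u, v × w⟫`, so by Cauchy-Schwarz `D3² ≤ |u|² |v × w|²` and
`|v × w|² = |v|²|w|² - ⟪v, w⟫² ≤ |v|²|w|²` (coordinates, `EuclideanSpace.norm_sq_eq`, `Fin.sum_univ_three`, `nlinarith` or
explicit squares). -/
def S_HAD : Prop := ∀ u v w : E 3, |D3 u v w| ≤ ‖u‖ * ‖v‖ * ‖w‖

/-- LSC. The volume of the hull is lower semicontinuous.
Proof. `P = conv (range p)` is compact and convex. If its interior is empty its volume is `0`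
(`Convex.addHaar_frontier`, `P` closed) and `η = 1` works. Otherwise let `ball z r ⊆ P`, `r > 0`, and choose `s ∈ (0, 1)` with
`s^d vol P ≥ vol P - ε`. `K = z + s (P - z)` has the volume `s^d vol P` (`Measure.addHaar_image_homothety`). Let `η = (1 - s) r / 2`. Let `|q i - p i| ≤ η`
for all `i` and `Q = conv (range q)`. Claim `K ⊆ Q`, which gives the result (all volumes are finite). Suppose
`w = z + s (a - z) ∈ K`, `a ∈ P`, `w ∉ Q`. Separation (`geometric_hahn_banach_closed_point`/`_compact_point`, Riesz `InnerProductSpace.toDual`) gives a unit vector `u` with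
`⟪x, u⟫ < ⟪w, u⟫` for all `x ∈ Q` (`Q` is not empty as `n > 0` here). The point `w' = w + η u = s a + (1 - s) (z + (r/2) u)` is in `P`. A linear functional on `P`
is at most its maximum on `range p`, so for some `i`: `⟪w, u⟫ + η = ⟪w', u⟫ ≤ ⟪p i, u⟫ ≤ ⟪q i, u⟫ + η < ⟪w, u⟫ + η`, a contradiction. -/
def S_LSC : Prop := ∀ (d n : ℕ) (p : Fin n → E d) (ε : ℝ), 0 < ε → ∃ η : ℝ, 0 < η ∧
  ∀ q : Fin n → E d, (∀ i, dist (q i) (p i) ≤ η) →
    (volume (convexHull ℝ (range p))).toReal ≤ (volume (convexHull ℝ (range q))).toReal + ε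

/-- ISO. Two families of points with the same distances are congruent.
Proof. If `n = 0` take the identity. Otherwise translate so that `p 0 = q 0 = 0` (compose with `IsometryEquiv.addRight`). By
polarization `⟪p i, p j⟫ = ⟪q i, q j⟫`. So the map `∑ c_i p_i ↦ ∑ c_i q_i` on `span (range p)` is well defined and isometric:
`|∑ c_i p_i|² = |∑ c_i q_i|²`. (Choose a subfamily that is a basis of the span, or define it by `LinearMap` factorization through `(Fin n →₀ ℝ)`.)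
It is a `LinearIsometry` from the subspace to `E d`; `LinearIsometry.extend` extends it to `E d → E d`, and a linear isometry of a finite
dimensional space to itself is an equivalence (`LinearIsometry.toLinearIsometryEquiv rfl`). -/
def S_ISO : Prop := ∀ (d n : ℕ) (p q : Fin n → E d), (∀ i j, dist (p i) (p j) = dist (q i) (q j)) →
  ∃ f : E d ≃ᵢ E d, ∀ i, f (p i) = q i

/-- PROJ. An orthonormal frame adapted to `u`.
Proof. Choose a unit vector `f₁` orthogonal to `u` (for example a multiple of `(u 1, - u 0, 0)` or, if `u 0 = u 1 = 0`, `f₁ = (1, 0, 0)`), and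
`f₂ = (u × f₁)/‖u‖`. The claims are polynomial identities in the coordinates, using `‖f₁‖ = 1`, `⟪u, f₁⟫ = 0`:
`D3 u a b = ⟪u, a × b⟫`, and `(u/‖u‖, f₁, f₂)` is a positively oriented orthonormal basis. (Identities: `⟪f₁,a⟫⟪f₂,b⟫ - ⟪f₂,a⟫⟪f₁,b⟫ = ⟪f₁ × f₂, a × b⟫` and
`f₁ × f₂ = u/‖u‖`; `|a|² = ⟪f₁,a⟫² + ⟪f₂,a⟫² + ⟪u,a⟫²/‖u‖²` is Parseval, or Lagrange's identity twice.) -/
def S_PROJ : Prop := ∀ u : E 3, u ≠ 0 → ∃ f₁ f₂ : E 3,
  (∀ a b : E 3, D3 u a b = ‖u‖ * (inner ℝ f₁ a * inner ℝ f₂ b - inner ℝ f₂ a * inner ℝ f₁ b)) ∧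
  ∀ a : E 3, ‖a‖ ^ 2 = inner ℝ f₁ a ^ 2 + inner ℝ f₂ a ^ 2 + (inner ℝ u a / ‖u‖) ^ 2

/-! ## The triangulation around an edge -/

/-- PAIR. Six planar vectors, no two of them parallel: there are two of them such that no line through
one of the other vectors separates them.
Proof. (1) For all but finitely many `t` the numbers `x_k = (g k).1 + t (g k).2` are all `≠ 0` (for every `k` at most one `t` is bad, as
`g k ≠ 0`), and the transformation `(x, y) ↦ (x + t y, y)` does not change `d2`. So assume `x_k ≠ 0`. (2) The slopes `m_k = y_k / x_k` satisfy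
`d2 (g k) (g l) = x_k x_l (m_l - m_k)`, so they are different. Let `σ` sort them (`Tuple.sort`), `m (σ 0) < ... < m (σ 5)`, `X a = x (σ a)`. (3) If
`X a * X (a+1) > 0` for some `a ≤ 4` take `i = σ a`, `j = σ (a + 1)`: for `n = σ b`, `b ≠ a, a + 1`,
`d2 (g n) (g i) * d2 (g n) (g j) = x_n² x_i x_j (m_i - m_n)(m_j - m_n) > 0`, since `b < a` or `b > a + 1`. (4) Otherwise `X 0 X 1 < 0, ..., X 4 X 5 < 0`, so
`X 0 X 5 < 0` (the product of the five is `X 0 (X 1 X 2 X 3 X 4)² X 5`). Take `i = σ 0`, `j = σ 5`: for all the other `n`, `m_i < m_n < m_j`, so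
`(m_i - m_n)(m_j - m_n) < 0` and the product is again positive. -/
def S_PAIR : Prop := ∀ g : Fin 6 → ℝ × ℝ, (∀ i j, i ≠ j → d2 (g i) (g j) ≠ 0) →
  ∃ i j, i ≠ j ∧ ∀ n, n ≠ i → n ≠ j → 0 < d2 (g n) (g i) * d2 (g n) (g j)

/-- STAR (hypothesis allowed: S_PAIR).
Proof. Let `Λ = {w : Fin 6 → ℝ | ∑ w = 0, ∑ w_r p_r = 0}`, the kernel of a linear map from a space of dimension 6 to one of
dimension 4, so there are linearly independent `λ, μ ∈ Λ`. If `w ∈ Λ` and `w_n = w_k = 0` for some `n ≠ k` then `w = 0`: an affine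
dependence of the four points `i₀, i₁, i₂, i₃` with `D3 (p i₁ - p i₀) (p i₂ - p i₀) (p i₃ - p i₀) ≠ 0` is trivial (apply `D3 · v w`, `D3 u · w`, `D3 u v ·` to `∑ w_r (p_r - p_{i₀}) = 0`). Let
`g_k = (λ_k, μ_k)`. `d2 (g n) (g k) ≠ 0` for `n ≠ k`: otherwise there is `(a, b) ≠ 0` with `a λ + b μ` vanishing at `n` and `k` (2x2 determinant zero), so `a λ + b μ = 0`, a
contradiction. Let `i, j` be from `S_PAIR` and `σ` a permutation with `σ 4 = i`, `σ 5 = j`. Let `k, l, m ∈ Fin 4` be distinct, `n` the fourth element of `Fin 4`; write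
`k` for `σ (c4 k)` etc. `ν_r = d2 (g n) (g r)` is in `Λ` (combination of `λ` and `μ`), `ν_n = 0`, `ν_i ν_j > 0`. The function
`φ z = D3 (p l - p k) (p m - p k) (z - p k)` is affine and vanishes at `p k, p l, p m`, so `0 = ∑ ν_r φ (p_r) = ν_i φ (p i) + ν_j φ (p j)`; `φ (p i) ≠ 0` by
`Gen`, so `φ (p i) φ (p j) < 0`. -/
def S_STAR : Prop := ∀ p : Fin 6 → E 3, Gen p → ∃ σ : Equiv.Perm (Fin 6), Star (p ∘ σ)

/-- COV (hypothesis allowed: `G_SV`, proved as `Pool.Agent.Helper86.Poly.pSV`). The hull is covered by the tetrahedra `4, 5, k, l`, `InF k l`.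
Proof. Write `p_r`, `K = {0, 1, 2, 3}`. (a) For distinct `k, l, m ∈ K` there is `μ : Fin 6 → ℝ` with `∑ μ = 0`, `∑ μ_r p_r = 0`,
`μ_4, μ_5 > 0`, `μ_n = 0` for the fourth `n ∈ K`: let `φ z = D3 (p_l - p_k) (p_m - p_k) (z - p_k)`, `μ_4 = |φ p_5|`, `μ_5 = |φ p_4|`; as `φ p_4 φ p_5 < 0` (`Star`) the point
`z = (μ_4 p_4 + μ_5 p_5)/(μ_4 + μ_5)` has `φ z = 0`; `p_l - p_k`, `p_m - p_k` are linearly independent and `D3` with `z - p_k` is `0`, so
`z - p_k` is a combination of them and `z = α p_k + β p_l + γ p_m`, `α + β + γ = 1`. Put `μ_k = -α (μ_4 + μ_5)` etc. (Or Cramer.) (b) Let `x` be in the hull. The set of the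
`w ∈ stdSimplex ℝ (Fin 6)` with `∑ w_r p_r = x` is compact and not empty; let `w` maximize `w_4 + w_5` on it. (b1) No three distinct `k, l, m ∈ K` have
`w_k, w_l, w_m > 0`: otherwise `w + ε μ` with `μ` of (a) and small `ε > 0` is such a `w` with a larger `w_4 + w_5`. (b2) If `w_k, w_l > 0`, `k ≠ l`, then `InF (Ad p) k l`: let
`m ∈ K` be different from `k, l`, `μ` from (a). If `μ_m ≥ 0` the same contradiction (`w + ε μ ≥ 0` for small `ε`). So `μ_m < 0`. Let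
`v_r = p_r - p_4`, `u = v_5`: `μ_k v_k + μ_l v_l + μ_m v_m + μ_5 u = 0`. Apply `D3 u · v_l`: `μ_k A_kl = μ_m A_lm` (`A = Ad p` is antisymmetric); apply `D3 u v_k ·`: `μ_l A_kl = μ_m A_mk`. So
`(μ_k + μ_l + μ_m) A_kl = μ_m (A_kl + A_lm + A_mk)`, and `μ_k + μ_l + μ_m = -(μ_4 + μ_5) < 0`, `μ_m < 0`, `A_kl ≠ 0` (`Gen`): so
`A_kl (A_kl + A_lm + A_mk) > 0`. (c) Hence the hull is contained in the union of the hulls of `{p_4, p_5, p_k, p_l}`, `k < l`, `InF (Ad p) k l` (note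
`InF a k l ↔ InF a l k`), and of the hulls of `{p_4, p_5, p_k}`. By `G_SV` (`d = 3`) the former have the volume `|A_kl|/6`, and the latter (take the simplex
`p_4, p_5, p_k, p_k`) have volume `0`. -/
def S_COV : Prop := ∀ p : Fin 6 → E 3, Gen p → Star p → 6 * vol p ≤ SF (Ad p)

/-- FINA. The combinatorics of the triangulation.
Proof. `a k l = d2 (v k) (v l)`, `X k l m = a k l + a l m + a m k` (cyclically symmetric, changes the sign if two indices are exchanged), `F k l` means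
`InF a k l`, so `0 < a k l * X k l m` for `m ≠ k, l`; it is symmetric in `k, l`. (1) `F k l`, `F l m` imply `a k l * a l m > 0`: both have the sign of
`X k l m`. (2) Not all of `F l k`, `F l m`, `F l n` (distinct indices): by (1) `a k l a l m > 0`, `a k l a l n > 0`, `a m l a l n > 0`, impossible. (3) If
`F k l`, `F m n` with `k, l, m, n` distinct and `a k l * a m n > 0` then `F l m` or `F n k`. Say both are positive (else change the signs, for instance by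
exchanging the coordinates of all the `v k`). Then `X k l m, X k l n, X m n k, X m n l > 0`. If `a l m > 0` then `F l m`, because `X l m k = X k l m > 0`, `X l m n = X m n l > 0`;
if `a n k > 0` then `F n k`. Otherwise `a l m ≤ 0`, `a n k ≤ 0`, but (polynomial identity)
`X m n k * X m n l * a k l + X k l m * X k l n * a m n = X m n k * X k l n * a l m + X m n l * X k l m * a n k`, where the left side is `> 0` and the right
side `≤ 0`. If `a k l * a m n < 0` exchange `m` and `n`: `F l n` or `F m k`. (4) Let `S = SF a`. No `F`: `S = 0`, first case. Exactly one: first case. Otherwise by (3) there are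
`F k l`, `F l m` with `k, l, m` distinct; `n` the fourth index; by (2) not `F l n`. If `F m k`: by (2) neither `F k n` nor `F m n`, and
`S = |a k l| + |a l m| + |a m k| = |X k l m|` (same signs by (1)): third case. Otherwise: both `F m n`, `F n k`: fourth case, same signs by (1). Only `F m n`: let `s = ±1` be the common sign of
`a k l, a l m, a m n`; `X k l m, X k l n, X m n k, X m n l` have the sign `s`; as `F n k` fails and `X n k l = X k l n`, `X n k m = X m n k` have the sign `s`,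
`s * a n k ≤ 0`, so `s * a k n ≥ 0`: fifth case with `ρ = (k, l, m, n)`. Only `F n k`: fifth case with `(n, k, l, m)`. Neither: second case. -/
def S_FINA : Prop := ∀ v : Fin 4 → ℝ × ℝ, (∀ k l, k ≠ l → d2 (v k) (v l) ≠ 0) →
  ∀ a : Fin 4 → Fin 4 → ℝ, (∀ k l, a k l = d2 (v k) (v l)) →
  ∃ ρ : Equiv.Perm (Fin 4),
    SF a ≤ |a (ρ 0) (ρ 1)| ∨ SF a ≤ |a (ρ 0) (ρ 1) + a (ρ 1) (ρ 2)| ∨
    SF a ≤ |a (ρ 0) (ρ 1) + a (ρ 1) (ρ 2) + a (ρ 2) (ρ 0)| ∨
    SF a ≤ |a (ρ 0) (ρ 1) + a (ρ 1) (ρ 2) + a (ρ 2) (ρ 3) + a (ρ 3) (ρ 0)| ∨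
    ∃ s : ℝ, (s = 1 ∨ s = -1) ∧ 0 ≤ s * a (ρ 0) (ρ 3) ∧
      0 ≤ s * (a (ρ 0) (ρ 1) + a (ρ 1) (ρ 3) + a (ρ 3) (ρ 0)) ∧
      0 ≤ s * (a (ρ 0) (ρ 2) + a (ρ 2) (ρ 3) + a (ρ 3) (ρ 0)) ∧
      SF a ≤ s * (a (ρ 0) (ρ 1) + a (ρ 1) (ρ 2) + a (ρ 2) (ρ 3))

/-- FIN (hypotheses allowed: S_HAD, S_PROJ, S_COV, S_FINA).
Proof. `u = p 5 - p 4 ≠ 0` by `Gen`. With `f₁, f₂` from `S_PROJ` and `v k = (⟪f₁, p k - p 4⟫, ⟪f₂, p k - p 4⟫)` (`k ∈ Fin 4`, `p k = p (c4 k)`) we have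
`Ad p k l = ‖u‖ * d2 (v k) (v l)`; so for `a k l = d2 (v k) (v l)`: `InF (Ad p) = InF a`, `SF (Ad p) = ‖u‖ * SF a`, `a k l ≠ 0` for `k ≠ l` (`Gen`). By `S_COV`
`6 vol p ≤ ‖u‖ * SF a`. Apply `S_FINA`; write `k, l, m, n` for `ρ 0, .., ρ 3`; all distances are `≤ 1`, so by `S_HAD`: case 1: `‖u‖ |a k l| = |D3 u (p k - p 4) (p l - p 4)| ≤ 1`; case 2:
`‖u‖ |a k l + a l m| = |D3 u (p l - p 4) (p m - p k)| ≤ 1`; case 3: `|D3 u (p l - p k) (p m - p k)| ≤ 1`; case 4: `|D3 u (p m - p k) (p n - p l)| ≤ 1`. Case 5, `s = 1`: let `σ` be the permutation of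
`Fin 6` with `σ (c4 k) = c4 (ρ k)`, `σ 4 = 4`, `σ 5 = 5`; then `Ad (p ∘ σ) k l = Ad p (ρ k) (ρ l)`, and the hull and `vol` do not change, so `PB (p ∘ σ)`. `s = -1`: `σ` also
exchanges `4` and `5`: this changes the sign of all `Ad`, since `D3 (p 4 - p 5) (p k - p 5) (p l - p 5) = D3 (-u) (p k - p 4 - u) (p l - p 4 - u) = - D3 u (p k - p 4) (p l - p 4)`. -/
def S_FIN : Prop := ∀ p : Fin 6 → E 3, (∀ i j, dist (p i) (p j) ≤ 1) → Gen p → Star p →
  6 * vol p ≤ 1 ∨ ∃ σ : Equiv.Perm (Fin 6), PB (p ∘ σ)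

/-- PERT. General position is dense.
Proof. Let `m k = (k, k², k³)` and `q_t i = (1 + 200 t)⁻¹ (p i + t m i)`, `t > 0`. `|m i - m j| ≤ 200`, so the distances of the `q_t i` are at most `1`. For distinct `i, j, k, l`
`(1 + 200 t)³ D3 (q_t j - q_t i) (q_t k - q_t i) (q_t l - q_t i)` is a polynomial in `t` of degree at most `3` whose coefficient of `t³` is
`D3 (m j - m i) (m k - m i) (m l - m i) = ± ∏ (differences) ≠ 0` (Vandermonde; finitely many integer determinants, `decide` or `norm_num`). So it vanishes for finitely many `t` only. As `q_t → p` for `t → 0`,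
every small `t > 0` outside of a finite set works. -/
def S_PERT : Prop := ∀ p : Fin 6 → E 3, (∀ i j, dist (p i) (p j) ≤ 1) → ∀ η : ℝ, 0 < η →
  ∃ q : Fin 6 → E 3, Gen q ∧ (∀ i j, dist (q i) (q j) ≤ 1) ∧ ∀ i, dist (q i) (p i) ≤ η

/-- CLOSE (hypotheses allowed: S_LSC, S_STAR, S_FIN, S_PERT).
Proof. `S_PERT` gives `q_n`, `Gen (q_n)`, distances `≤ 1`, `|q_n i - p i| ≤ 1/(n+1)`. By `S_STAR` and `S_FIN` (for `q_n ∘ τ`; a composition of permutations is a permutation,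
`vol (q ∘ σ) = vol q`) either `6 vol q_n ≤ 1` or `PB (q_n ∘ σ_n)`. There are finitely many permutations, so either `6 vol q_n ≤ 1` for infinitely many `n`, and then `6 vol p ≤ 1` by
`S_LSC`, or there is one `σ` with `PB (q_n ∘ σ)` for infinitely many `n`. Then `PB (p ∘ σ)`: the first three conditions are closed (polynomials in the
coordinates), the last one follows from `S_LSC` and the continuity of `Ad`. -/
def S_CLOSE : Prop := ∀ p : Fin 6 → E 3, (∀ i j, dist (p i) (p j) ≤ 1) →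
  6 * vol p ≤ 1 ∨ ∃ σ : Equiv.Perm (Fin 6), PB (p ∘ σ)

/-! ## The planar problem -/

/-- OPT. Proof. On `[0, 1/2]`: `gf x ≤ √(3/4) < 1`. On `[1/2, 1]` `gf` is strictly concave: `√(1/2 + x - x²) = √(3/4 - (x - 1/2)²)` is strictly concave and
`B x = (2x - 1) √(1 - x²)` has `B'' = (4x³ - 6x + 1)/(1 - x²)^(3/2) < 0` on `(1/2, 1)` (`strictConcaveOn_of_deriv2_neg`). `gf` is continuous, so it has a maximiser `x₀` on `[1/2, 1]`, which is unique
by strict concavity, and `gf x₀ ≥ gf 0.8032 > 1.172453 > 1`, so it is the unique maximiser on `[0, 1]`. The derivative is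
`gf' x = (1 - 2x)/(2√(1/2 + x - x²)) + (2 + x - 4x²)/√(1 - x²)` on `(1/2, 1)`; `gf' 0.8032 > 0 > gf' 0.80321` (`≈ 4.4e-5`, `-5.2e-5`; use the square roots to 8 digits) gives `0.8032 < x₀ < 0.80321`
(antitone derivative, or the tangent line inequality of the concave function), and `gf' x₀ = 0` gives `(2x - 1)√(1 - x²) = 2 (2 + x - 4x²) √(1/2 + x - x²)`, whose square is the
equation `root`. Upper bound: by concavity `gf x₀ ≤ gf 0.8032 + gf' 0.8032 * (x₀ - 0.8032) ≤ 1.1724533`. -/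
def S_OPT : Prop := ∃ x₀, Opt x₀

/-- PENA. The planar pentagon, `β + ε` large.
Proof. `B = (0, 0)`, `E = (L, 0)`; the reflection `u ↦ L - u` exchanges the roles of `(β, b)` and `(ε, c)`, so we may assume `ε ≤ β` (prove this case first). `AD` gives `y + b sin β ≤ √(3/4) ≤ 0.8661`. So
`pv ≤ b c sin (β + ε) + L (0.8661 - b sin β)`. If `sin (β + ε) ≤ 0` then `pv ≤ 0.8661` (`b sin β ≥ 0`). Otherwise `β + ε < π`, and as `c ≤ 1` and the bound is affine in `L ∈ [0, 1]`,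
`pv ≤ (1 - L) * 1 + L * (0.8661 + b (sin (β + ε) - sin β))`. Let `σ = (β + ε)/2 ≤ β ≤ 2σ < π`. `sin β ≥ min (sin σ) (sin 2σ)` (concavity of `sin` on `[0, π]`). If `sin β ≥ sin 2σ` we are done. If
`sin β ≥ sin σ` then `sin 2σ - sin β ≤ sin σ (2 cos σ - 1) ≤ 0.3`: clear if `2 cos σ ≤ 1`; else `z = 2 cos σ - 1 ∈ [0, 0.42]` and `(sin σ)² z² = z² (3 - 2z - z²)/4 ≤ 0.0876 ≤ 0.3²`. So the second factor
is at most `1.1661`. -/
def S_PENA : Prop := ∀ β ε b c L u y : ℝ, Pen β ε b c L u y → Real.cos ((β + ε) / 2) ≤ 0.71 →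
  pv β ε b c L y ≤ 1.17

/-- PENB. The planar pentagon, main estimate.
Proof. `σ = (β + ε)/2`, `δ = (β - ε)/2`, `x = cos σ ≥ 0.71 > cos (π/4)`, `σ < π/4`, `|δ| ≤ σ`, `0 ≤ β, ε ≤ 2σ < π/2`; `C = cos δ ≥ x > 0`, `S = sin δ`. Let
`λ = (1 - S)/2`, `Y = -λ c sin ε - (1 - λ) b sin β`, `X = b cos β + c cos ε - L`. (1) `(y - Y)² + (C²/4) X² ≤ 3/4`: for the points `P = (L - c cos ε, -c sin ε)`, `D = (b cos β, -b sin β)`, `A = (u, y)`, `N = λ P + (1 - λ) D`: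
`|A - N|² = λ |A - P|² + (1 - λ) |A - D|² - λ (1 - λ) |P - D|²`, `λ (1 - λ) = C²/4`, `|P - D|² ≥ X²`, `|A - N|² ≥ (y - Y)²`. (2) Cauchy-Schwarz: `(y - Y) + t (C/2) X ≤ √(1 + t²) √(3/4)`. So with `R = √3/2 * √(1 + t²)`,
`y ≤ Y - (t C/2) X + R`. (3) Hence (`L² ≤ L`) `pv ≤ (1 - L) b c sin 2σ + L U`, `U = b c sin 2σ - b α - c γ + W`, `α = (1 - λ) sin β + (t C/2) cos β ≥ 0`, `γ = λ sin ε + (t C/2) cos ε ≥ 0`, `W = t C/2 + R ≤ 0.22 + 0.94616 ≤ 1.1662`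
(`√1.1936 ≤ 1.09253`). (4) `U = b c (sin 2σ - α - γ + W) + b (1 - c) (W - α) + (1 - b) c (W - γ) + (1 - b)(1 - c) W ≤ b c U₁ + (1 - b c) W`, `U₁ = sin 2σ - α - γ + W`. (5) `sin β + sin ε = 2 C sin σ`, `sin β - sin ε = 2 S cos σ`, `cos β + cos ε = 2 C x`, so
`α + γ = C sin σ + x S² + t C² x`. With `f₁` = the number in the statement (`f₁ = 2 x sin σ - sin σ - t (x - 1/2) + R`): `f₁ - U₁ = (1 - C) (x (1 - t)(1 + C) - sin σ + t/2)`, and the bracket is at least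
`0.71 * 1.71 * (1 - t) + t/2 - 0.7043 ≥ 0.19 ≥ 1/10` (`C ≥ x ≥ 0.71`, `sin σ ≤ √(1 - 0.71²)`). So `U₁ ≤ f₁ - (1 - C)/10`. -/
def S_PENB : Prop := ∀ β ε b c L u y t : ℝ, Pen β ε b c L u y → 0.71 ≤ Real.cos ((β + ε) / 2) →
  0 ≤ t → t ≤ 0.44 →
  pv β ε b c L y ≤ (1 - L) + L * (b * c * (2 * Real.cos ((β + ε) / 2) * Real.sin ((β + ε) / 2)
    - Real.sin ((β + ε) / 2) - t * (Real.cos ((β + ε) / 2) - 1 / 2)
    + Real.sqrt 3 / 2 * Real.sqrt (1 + t ^ 2) - (1 - Real.cos ((β - ε) / 2)) / 10)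
    + (1 - b * c) * 1.1662)

/-- PENT (hypotheses allowed: S_PENA, S_PENB).
Proof. `x = cos σ`, `σ = (β + ε)/2 ∈ [0, π]`, `T = gf x₀ > 1.172453`. If `x ≤ 0.71`: `S_PENA`. If `x ≥ 0.84` use `S_PENB` with `t = 2/5`: `f₁ = (2x - 1)(sin σ - 1/5) + √3/2 √1.16 ≤ 1.17`: `√3/2 √1.16 ≤ 0.93275`; Cauchy-Schwarz
`0.84 x + 0.5426 sin σ ≤ 1.00001`, so with `z = x - 0.84 ≥ 0`: `sin σ ≤ 0.54265 - 1.548 z` and `(0.68 + 2 z)(0.34265 - 1.548 z) ≤ 0.68 * 0.34265 + z (0.6853 - 1.0526) ≤ 0.2331`. The bound of `S_PENB` is then at most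
`(1 - L) + L * 1.17 ≤ 1.17`. If `0.71 ≤ x ≤ 0.84` use `t = (x - 1/2)/ρ`, `ρ = √(1/2 + x - x²)`, `ρ² = 3/4 - (x - 1/2)²`: `t ≤ 0.34/√0.6344 ≤ 0.43`, `1 + t² = (3/4)/ρ²`, so `√3/2 √(1 + t²) = 3/(4ρ)` and
`- t (x - 1/2) + 3/(4ρ) = ρ`. So the bound is `(1 - L) + L (b c (gf x - (1 - C)/10) + (1 - b c) * 1.1662) ≤ T` because `gf x ≤ T` (note `sin σ = √(1 - x²)`). Equality `pv = T` is possible in the last case only, and (as `1 < T`, `1.1662 < T`) only if `L = 1`,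
`b c = 1` (so `b = c = 1`), `C = 1` (so `β = ε`, since `|β - ε|/2 ≤ π/2`), `gf x = T`, so `x = x₀`, `β = ε = σ`. Then `pv = 2 x₀ sin σ + y = T` gives `y = ρ - sin σ`. Finally `AC`: `(u - (1 - x₀))² + ρ² ≤ 3/4`, so `|u - (1 - x₀)| ≤ x₀ - 1/2`, and
`AD`: `|u - x₀| ≤ x₀ - 1/2`; so `u = 1/2`. -/
def S_PENT : Prop := ∀ x₀, Opt x₀ → ∀ β ε b c L u y : ℝ, Pen β ε b c L u y →
  pv β ε b c L y ≤ gf x₀ ∧ (pv β ε b c L y = gf x₀ → b = 1 ∧ c = 1 ∧ L = 1 ∧ β = ε ∧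
    Real.cos β = x₀ ∧ u = 1 / 2 ∧ y = Real.sqrt (1 / 2 + x₀ - x₀ ^ 2) - Real.sqrt (1 - x₀ ^ 2))

/-- squared distance in the plane -/
def q2 (a b : ℝ × ℝ) : ℝ := (a.1 - b.1) ^ 2 + (a.2 - b.2) ^ 2

/-- PLAN (hypothesis allowed: S_PENT). `T = gf x₀`, `X k l m = d2 (v k) (v l) + d2 (v l) (v m) + d2 (v m) (v k)`.
Proof. Identity: `d2 v0 v1 + d2 v1 v2 + d2 v2 v3 = d2 (v2 - v0) (v3 - v1) + d2 v0 v3`. If `v3 = v0` the value is at most `|v2 - v0| |v3 - v1| ≤ 1 < T`. Otherwise `L = |v3 - v0| ∈ (0, 1]`, `e = (v3 - v0)/L`, `n = (-e.2, e.1)`; use the coordinates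
`z ↦ (⟪z - v0, e⟫, ⟪z - v0, n⟫) = (⟪z - v0, e⟫, d2 e (z - v0))`, an isometry that preserves `d2` of differences. `B = v0 ↦ (0, 0)`, `E = v3 ↦ (L, 0)`, `A = 0 ↦ (u, y)` with `y = d2 e (-v0) = d2 v0 v3 / L ≥ 0`. The second coordinate of `v1` is
`d2 (v3 - v0) (v1 - v0)/L = -X 0 1 3/L ≤ 0`, the one of `v2` is `-X 0 2 3/L ≤ 0`. So (polar coordinates of a vector in the lower half plane) `v2 ↦ (b cos β, -b sin β)`, `b = |v2 - v0| ≤ 1`, `β ∈ [0, π]`, and `v1 ↦ (L - c cos ε, -c sin ε)`, `c = |v1 - v3| ≤ 1`,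
`ε ∈ [0, π]`. `|v1|² ≤ 3/4` is `AC`, `|v2|² ≤ 3/4` is `AD`. The value is `b c sin (β + ε) + L y`. Apply `S_PENT`. In the case of equality all coordinates are known: `B = (0, 0)`, `P = v1 = (1 - x₀, -s)`, `D = v2 = (x₀, -s)`, `E = (1, 0)`, `A = (1/2, ρ - s)`,
`s = √(1 - x₀²) = sin β`, `ρ = √(1/2 + x₀ - x₀²)`, `ρ² + (x₀ - 1/2)² = 3/4`; compute the distances. -/
def S_PLAN : Prop := ∀ x₀, Opt x₀ → ∀ v0 v1 v2 v3 : ℝ × ℝ,
  q2 v1 0 ≤ 3 / 4 → q2 v2 0 ≤ 3 / 4 → q2 v0 v2 ≤ 1 → q2 v1 v3 ≤ 1 → q2 v0 v3 ≤ 1 →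
  0 ≤ d2 v0 v3 → 0 ≤ d2 v0 v1 + d2 v1 v3 + d2 v3 v0 → 0 ≤ d2 v0 v2 + d2 v2 v3 + d2 v3 v0 →
  d2 v0 v1 + d2 v1 v2 + d2 v2 v3 ≤ gf x₀ ∧
  (d2 v0 v1 + d2 v1 v2 + d2 v2 v3 = gf x₀ → q2 v0 v3 = 1 ∧ q2 v0 v2 = 1 ∧ q2 v1 v3 = 1 ∧
    q2 v1 0 = 3 / 4 ∧ q2 v2 0 = 3 / 4 ∧ q2 v0 v1 = 2 - 2 * x₀ ∧ q2 v2 v3 = 2 - 2 * x₀ ∧
    q2 v1 v2 = (2 * x₀ - 1) ^ 2 ∧
    q2 v0 0 = 1 / 4 + (Real.sqrt (1 / 2 + x₀ - x₀ ^ 2) - Real.sqrt (1 - x₀ ^ 2)) ^ 2 ∧
    q2 v3 0 = 1 / 4 + (Real.sqrt (1 / 2 + x₀ - x₀ ^ 2) - Real.sqrt (1 - x₀ ^ 2)) ^ 2)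

/-! ## The volume -/

/-- UB (hypotheses allowed: S_PROJ, S_CLOSE, S_PLAN), the upper bound and the case of equality.
Proof. `T = gf x₀ > 1.17`. By `S_CLOSE` either `6 vol p ≤ 1 < T`, or `PB q`, `q = p ∘ σ`, `vol q = vol p`. If `q 5 = q 4` all `Ad q = 0`, so `6 vol p ≤ 0`. Otherwise `u = q 5 - q 4`, `ℓ = ‖u‖ ∈ (0, 1]`, `f₁, f₂` from `S_PROJ`; for `k = 0, .., 3`
`v_k = (⟪f₁, q k - q 4⟫, ⟪f₂, q k - q 4⟫)`, `h_k = ⟪u, q k - q 4⟫/ℓ`. `Ad q k l = ℓ d2 v_k v_l`. `|v_k - v_l|² + (h_k - h_l)² = |q k - q l|² ≤ 1`, `|v_k|² + h_k² = |q k - q 4|² ≤ 1`, `|v_k|² + (h_k - ℓ)² = |q k - q 5|² ≤ 1` (the coordinates of `u` are `0, 0, ℓ`: use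
the norm formula of `S_PROJ` for `a = u`, or `D3 u u b = 0`). The sum of the last two and `h² + (h - ℓ)² ≥ ℓ²/2` give `|v_k|² ≤ 1 - ℓ²/4`. Let `r = √((3/4)/(1 - ℓ²/4)) ≤ 1`. The vectors `r v_k` satisfy the hypotheses of `S_PLAN`, so
`d2 v0 v1 + d2 v1 v2 + d2 v2 v3 ≤ T/r² = T (4 - ℓ²)/3` and `6 vol p ≤ ℓ (4 - ℓ²)/3 * T ≤ T`, since `3 - 4ℓ + ℓ³ = (1 - ℓ)(3 - ℓ - ℓ²) ≥ 0`. Equality: `6 vol p = T` forces `ℓ = 1`, `r = 1` and the equality in `S_PLAN`. As `|v_1|² = 3/4`,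
`h_1² + (h_1 - 1)² ≤ 1/2`, so `h_1 = 1/2`; in the same way `h_2 = 1/2`. `|v_0 - v_2| = 1` and `|q 0 - q 2| ≤ 1` give `h_0 = h_2 = 1/2`, and `|v_1 - v_3| = 1` gives `h_3 = 1/2`. So all distances of the points `q` are known and agree with the distances of
`pst x₀` (for example `|q 0 - q 4|² = |v_0|² + 1/4`, `|q 4 - q 5| = 1`, `|q 1 - q 2| = |2 x₀ - 1|`). -/
def S_UB : Prop := ∀ x₀, Opt x₀ → ∀ p : Fin 6 → E 3, (∀ i j, dist (p i) (p j) ≤ 1) →
  6 * vol p ≤ gf x₀ ∧ (6 * vol p = gf x₀ → ∃ σ : Equiv.Perm (Fin 6), ∀ i j,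
    dist (p (σ i)) (p (σ j)) = dist (pst x₀ i) (pst x₀ j))

/-- LB (hypothesis allowed: `G_SV`). The example. Write `s = √(1 - x²)`, `ρ = √(1/2 + x - x²)`, `h = ρ - s`.
Proof. Distances (squared): `|0-2| = |1-3| = x² + s² = 1`, `|0-3| = 1`, `|0-1| = |2-3| = (1-x)² + s² = 2 - 2x ≤ 1`, `|1-2| = (2x-1)² ≤ 1`, `|4-5| = 1`, `|1-4| = |2-4| = (x - 1/2)² + ρ² + 1/4 = 1` (also for `5`), `|0-4| = |3-4| = 1/4 + h² + 1/4 ≤ 1` because `ρ² ≤ 3/4`,
`0 ≤ h`, and `h² ≤ 1/2` (`h ≤ ρ - s`, `ρ² = 1/2 + x - x² ≤ 11/16` for `x ≥ 3/4`: so `h ≤ ρ`, and `ρ² - 2 ρ s + s² ≤ 1/2` follows from `x - x² + s² ≤ 2 ρ s`, that is `(1 - x)(1 + 2x) ≤ 2 ρ s`, whose square is `(1 - x)(1 + 2x)² ≤ 4 (1/2 + x - x²)(1 + x)`: true for `x ∈ [0, 1]`). Volume: the tetrahedra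
`T₁ = conv {4, 5, 0, 1}`, `T₂ = conv {4, 5, 1, 2}`, `T₃ = conv {4, 5, 2, 3}` are contained in the hull. By `G_SV` six times their volumes are `s/2 + h - h x`, `(s + h)(2x - 1)`, `s/2 + h - h x`, with the sum `h + 2 x s = gf x`. They are separated by the vertical planes through
the axis `4, 5` and the point `1` (resp. `2`): with `φ₁ z = (z - A) × (P₁ - A)` (planar cross product of the first two coordinates, `A = (0, h)`, `P₁ = (1/2 - x, -s)`), `φ₁` has one sign on `T₁` and the other one on `T₂, T₃`, and similarly `φ₂` for `2`; so the pairwise intersections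
are contained in planes and have volume `0`, and the volume of the union is the sum. -/
def S_LB : Prop := ∀ x : ℝ, 3 / 4 ≤ x → x ≤ 1 → (∀ i j, dist (pst x i) (pst x j) ≤ 1) ∧
  gf x ≤ 6 * vol (pst x)

/-- FINAL (hypotheses allowed: S_OPT, S_UB, S_LB, S_ISO and `G_MAX`, `G_MX1`, both proved).
Proof. `x₀` from `S_OPT`, `T = gf x₀`, `q = pst x₀`. By `S_LB` and `S_UB` `6 vol q = T` and `q` is a maximiser (`Mx 3 6 q`: volumes of hulls of finite sets are finite, so the comparison of the real volumes gives the one in `ENNReal`). By `G_MX1` its hull is `Admissible 3 6`. Every admissible `P` is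
`conv (range p)` where `p : Fin 6 → E 3` enumerates its six extreme points (Krein-Milman, as in the proofs of `G_UB`, `G_ATT`), with distances at most `diam P = 1`; so `vol P ≤ T/6` by `S_UB`, and `V 3 6 = T/6`. If `vol P = V 3 6` then by `S_UB` and `S_ISO` there are `σ` and an
isometry `f` with `f (q i) = p (σ i)`; so `f '' conv (range q) = conv (range p) = P` (an isometry of `E 3` is affine: `IsometryEquiv.toRealAffineIsometryEquiv`, `AffineMap.image_convexHull`). -/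
def S_FINAL : Prop := ∃ x : ℝ, 0.8032 < x ∧ x < 0.80321 ∧
  (2 * x - 1) ^ 2 * (1 - x ^ 2) = 2 * (2 + x - 4 * x ^ 2) ^ 2 * (1 + 2 * x - 2 * x ^ 2) ∧
  V 3 6 = (Real.sqrt (1 / 2 + x - x ^ 2) + (2 * x - 1) * Real.sqrt (1 - x ^ 2)) / 6 ∧
  0.1954088 < V 3 6 ∧ V 3 6 < 0.195409 ∧
  Admissible 3 6 (convexHull ℝ (range (pst x))) ∧
  (volume (convexHull ℝ (range (pst x)))).toReal = V 3 6 ∧
  ∀ P : Set (E 3), Admissible 3 6 P → (volume P).toReal = V 3 6 →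
    ∃ f : E 3 ≃ᵢ E 3, P = f '' convexHull ℝ (range (pst x))

end Pool.Agent.Helper55.V36
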